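import Mathlib
import Pool.Agent.helper56.CDC.Def

/-!
# CDC-C : cycles and the decomposition of even sets into cycles

Conventions of Def.lean: the multigraph is given by s, t : E → V.
-/

namespace CDC

set_option linter.unusedSectionVars false
set_option linter.unusedDecidableInType false

variable {V E : Type*} [Fintype V] [DecidableEq V] [Fintype E] [DecidableEq E]

/-- the degree of v in the edge set C (a loop counts twice) -/
def edeg (s t : E → V) (C : Finset E) (v : V) : ℕ :=
  (C.filter (fun e => s e = v)).card + (C.filter (fun e => t e = v)).card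

/-- the two edges have a common end -/
def Touch (s t : E → V) (e e' : E) : Prop :=
  s e = s e' ∨ s e = t e' ∨ t e = s e' ∨ t e = t e'

/-- a cycle: a nonempty edge set C in which every vertex has degree 0 or 2 (a loop counts twice, so a loop
is a cycle of length one) and which is connected: any two edges of C are joined by a chain of edges of C,
consecutive ones having a common end -/
structure IsCycle (s t : E → V) (C : Finset E) : Prop where
  nonempty : C.Nonempty
  two_regular : ∀ v, edeg s t C v = 0 ∨ edeg s t C v = 2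
  connected : ∀ e ∈ C, ∀ e' ∈ C,
    Relation.ReflTransGen (fun a b => a ∈ C ∧ b ∈ C ∧ Touch s t a b) e e'


theorem evSet_iff (s t : E → V) (C : Finset E) :
    EvSet s t C ↔ ∀ v, Even (edeg s t C v) := Iff.rfl


theorem edeg_union_inter (s t : E → V) (A B : Finset E) (v : V) :
    edeg s t (A ∪ B) v + edeg s t (A ∩ B) v = edeg s t A v + edeg s t B v := by
  unfold edeg
  have h1 := Finset.card_union_add_card_inter (A.filter (fun e => s e = v)) (B.filter (fun e => s e = v))
  have h2 := Finset.card_union_add_card_inter (A.filter (fun e => t e = v)) (B.filter (fun e => t e = v))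
  rw [← Finset.filter_inter_distrib] at h1 h2
  rw [Finset.filter_union, Finset.filter_union]
  omega


theorem edeg_mono (s t : E → V) {A B : Finset E} (h : A ⊆ B) (v : V) :
    edeg s t A v ≤ edeg s t B v := by
  unfold edeg
  exact Nat.add_le_add (Finset.card_le_card (Finset.filter_subset_filter _ h))
    (Finset.card_le_card (Finset.filter_subset_filter _ h))


theorem edeg_sdiff (s t : E → V) {A B : Finset E} (h : B ⊆ A) (v : V) :
    edeg s t (A \ B) v + edeg s t B v = edeg s t A v := by
  have h1 := edeg_union_inter s t (A \ B) B v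
  rw [Finset.sdiff_union_of_subset h, Finset.sdiff_inter_self] at h1
  have h2 : edeg s t (∅ : Finset E) v = 0 := by simp [edeg]
  omega


theorem evSet_sdiff (s t : E → V) {A B : Finset E} (h : B ⊆ A) (hA : EvSet s t A) (hB : EvSet s t B) :
    EvSet s t (A \ B) := by
  intro v
  have h1 := edeg_sdiff s t h v
  have hA' : Even (edeg s t A v) := hA v
  have hB' : Even (edeg s t B v) := hB v
  change Even (edeg s t (A \ B) v)
  rw [← h1] at hA'
  exact (Nat.even_add.mp hA').mpr hB'


theorem sum_edeg (s t : E → V) (C : Finset E) : ∑ v, edeg s t C v = 2 * C.card := by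
  unfold edeg
  rw [Finset.sum_add_distrib]
  have h1 : ∑ v, (C.filter (fun e => s e = v)).card = C.card :=
    (Finset.card_eq_sum_card_fiberwise (fun e _ => Finset.mem_univ (s e))).symm
  have h2 : ∑ v, (C.filter (fun e => t e = v)).card = C.card :=
    (Finset.card_eq_sum_card_fiberwise (fun e _ => Finset.mem_univ (t e))).symm
  omega


theorem edeg_pos_left (s t : E → V) {C : Finset E} {e : E} (he : e ∈ C) : 0 < edeg s t C (s e) := by
  unfold edeg
  have : 0 < (C.filter (fun e' => s e' = s e)).card :=
    Finset.card_pos.mpr ⟨e, Finset.mem_filter.mpr ⟨he, rfl⟩⟩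
  omega


theorem edeg_pos_right (s t : E → V) {C : Finset E} {e : E} (he : e ∈ C) : 0 < edeg s t C (t e) := by
  unfold edeg
  have : 0 < (C.filter (fun e' => t e' = t e)).card :=
    Finset.card_pos.mpr ⟨e, Finset.mem_filter.mpr ⟨he, rfl⟩⟩
  omega


theorem exists_of_edeg_pos (s t : E → V) {C : Finset E} {v : V} (h : 0 < edeg s t C v) :
    ∃ e ∈ C, s e = v ∨ t e = v := by
  unfold edeg at h
  by_contra hne
  push Not at hne
  have h1 : C.filter (fun e => s e = v) = ∅ := Finset.filter_eq_empty_iff.mpr (fun e he => (hne e he).1)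
  have h2 : C.filter (fun e => t e = v) = ∅ := Finset.filter_eq_empty_iff.mpr (fun e he => (hne e he).2)
  rw [h1, h2] at h
  simp at h

/-- the component of an edge of an even set is even -/
theorem component_even (s t : E → V) {C : Finset E} (hC : EvSet s t C) (e : E)
    (D : Finset E) (hD : ∀ x, x ∈ D ↔ x ∈ C ∧
      Relation.ReflTransGen (fun a b => a ∈ C ∧ b ∈ C ∧ Touch s t a b) e x) :
    EvSet s t D := by
  intro v
  change Even (edeg s t D v)
  have hsub : D ⊆ C := fun x hx => ((hD x).mp hx).1
  by_cases h : 0 < edeg s t D v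
  · obtain ⟨d, hd, hdv⟩ := exists_of_edeg_pos s t h
    have hd' := (hD d).mp hd
    have key : ∀ x ∈ C, (s x = v ∨ t x = v) → x ∈ D := by
      intro x hx hxv
      refine (hD x).mpr ⟨hx, hd'.2.tail ⟨hd'.1, hx, ?_⟩⟩
      unfold Touch
      rcases hdv with h1 | h1 <;> rcases hxv with h2 | h2 <;> simp [h1, h2]
    have h1 : D.filter (fun e => s e = v) = C.filter (fun e => s e = v) := by
      ext x
      simp only [Finset.mem_filter]
      exact ⟨fun h => ⟨hsub h.1, h.2⟩, fun h => ⟨key x h.1 (Or.inl h.2), h.2⟩⟩
    have h2 : D.filter (fun e => t e = v) = C.filter (fun e => t e = v) := by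
      ext x
      simp only [Finset.mem_filter]
      exact ⟨fun h => ⟨hsub h.1, h.2⟩, fun h => ⟨key x h.1 (Or.inr h.2), h.2⟩⟩
    unfold edeg
    rw [h1, h2]
    exact hC v
  · have : edeg s t D v = 0 := by omega
    rw [this]
    exact Even.zero

/-- an even set with a vertex of degree more than 2 and positive degree at least 2 everywhere contains a smaller
nonempty even set: counting of subsets -/
theorem exists_smaller (s t : E → V) {C : Finset E} (hC : EvSet s t C) (hne : C.Nonempty)
    (v₁ : V) (hv : 2 < edeg s t C v₁) :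
    ∃ D ⊂ C, D.Nonempty ∧ EvSet s t D := by
  classical
  obtain ⟨e₀, he₀⟩ := hne
  set W : Finset V := Finset.univ.filter (fun v => 0 < edeg s t C v) with hW
  have hW2 : ∀ v ∈ W, 2 ≤ edeg s t C v := by
    intro v hv
    have h1 : 0 < edeg s t C v := (Finset.mem_filter.mp hv).2
    have h2 : Even (edeg s t C v) := hC v
    rcases h2 with ⟨k, hk⟩
    omega
  have hv1W : v₁ ∈ W := Finset.mem_filter.mpr ⟨Finset.mem_univ _, by omega⟩
  -- the number of vertices is smaller than the number of edges
  have hcount : W.card < C.card := by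
    have h1 : ∑ v ∈ W, edeg s t C v ≤ ∑ v, edeg s t C v :=
      Finset.sum_le_sum_of_subset (Finset.subset_univ _)
    have h2 : ∑ v ∈ W, 2 < ∑ v ∈ W, edeg s t C v :=
      Finset.sum_lt_sum hW2 ⟨v₁, hv1W, hv⟩
    rw [sum_edeg] at h1
    rw [Finset.sum_const, smul_eq_mul] at h2
    omega
  -- pigeonhole
  let T := {v // v ∈ W.erase v₁}
  let φ : Finset E → (T → ZMod 2) := fun A v => (edeg s t A v.1 : ZMod 2)
  have hcard : (Finset.univ : Finset (T → ZMod 2)).card < (C.erase e₀).powerset.card := by
    rw [Finset.card_univ, Fintype.card_fun, ZMod.card, Finset.card_powerset, Finset.card_erase_of_mem he₀]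
    have : Fintype.card T = W.card - 1 := by
      rw [Fintype.card_coe, Finset.card_erase_of_mem hv1W]
    rw [this]
    have hWpos : 0 < W.card := Finset.card_pos.mpr ⟨v₁, hv1W⟩
    exact Nat.pow_lt_pow_right (by norm_num) (by omega)
  obtain ⟨A, hA, B, hB, hAB, hφ⟩ := Finset.exists_ne_map_eq_of_card_lt_of_maps_to hcard
    (f := φ) (fun a _ => Finset.mem_univ _)
  rw [Finset.mem_powerset] at hA hB
  have hsub : (A ∪ B) \ (A ∩ B) ⊆ C.erase e₀ :=
    Finset.sdiff_subset.trans (Finset.union_subset hA hB)
  refine ⟨(A ∪ B) \ (A ∩ B), ?_, ?_, ?_⟩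
  · refine Finset.ssubset_of_subset_of_ssubset hsub (Finset.erase_ssubset he₀)
  · rw [Finset.nonempty_iff_ne_empty]
    intro h0
    apply hAB
    rw [Finset.sdiff_eq_empty_iff_subset] at h0
    apply Finset.Subset.antisymm
    · exact fun x hx => (Finset.mem_inter.mp (h0 (Finset.mem_union_left _ hx))).2
    · exact fun x hx => (Finset.mem_inter.mp (h0 (Finset.mem_union_right _ hx))).1
  · -- parity
    have hpar : ∀ v, ((edeg s t ((A ∪ B) \ (A ∩ B)) v : ℕ) : ZMod 2)
        = (edeg s t A v : ZMod 2) + (edeg s t B v : ZMod 2) := by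
      intro v
      have h1 := edeg_sdiff s t (A := A ∪ B) (B := A ∩ B)
        (Finset.inter_subset_left.trans Finset.subset_union_left) v
      have h2 := edeg_union_inter s t A B v
      have h3 : edeg s t ((A ∪ B) \ (A ∩ B)) v + 2 * edeg s t (A ∩ B) v
          = edeg s t A v + edeg s t B v := by omega
      have h4 := congrArg (Nat.cast : ℕ → ZMod 2) h3
      push_cast at h4
      have h5 : (2 : ZMod 2) = 0 := by decide
      rw [h5, zero_mul, add_zero] at h4
      exact h4
    have hev : ∀ v, v ≠ v₁ → Even (edeg s t ((A ∪ B) \ (A ∩ B)) v) := by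
      intro v hvv
      by_cases hvW : v ∈ W
      · have h1 := congrFun hφ ⟨v, Finset.mem_erase.mpr ⟨hvv, hvW⟩⟩
        have h2 := hpar v
        change (edeg s t A v : ZMod 2) = (edeg s t B v : ZMod 2) at h1
        rw [h1] at h2
        have h3 : (edeg s t B v : ZMod 2) + (edeg s t B v : ZMod 2) = 0 := CharTwo.add_self_eq_zero _
        rw [h3] at h2
        exact (ZMod.natCast_eq_zero_iff_even).mp h2
      · have h1 : edeg s t C v = 0 := by
          by_contra h
          exact hvW (Finset.mem_filter.mpr ⟨Finset.mem_univ _, by omega⟩)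
        have h2 := edeg_mono s t (hsub.trans (Finset.erase_subset _ _)) v
        have h3 : edeg s t ((A ∪ B) \ (A ∩ B)) v = 0 := by omega
        rw [h3]
        exact Even.zero
    intro v
    change Even (edeg s t ((A ∪ B) \ (A ∩ B)) v)
    by_cases hvv : v = v₁
    · subst hvv
      have h1 := sum_edeg s t ((A ∪ B) \ (A ∩ B))
      rw [← Finset.add_sum_erase _ _ (Finset.mem_univ v)] at h1
      have h2 : Even (∑ x ∈ Finset.univ.erase v, edeg s t ((A ∪ B) \ (A ∩ B)) x) :=
        Finset.even_sum _ (fun x hx => hev x (Finset.mem_erase.mp hx).1)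
      have h3 : Even (2 * ((A ∪ B) \ (A ∩ B)).card) := even_two_mul _
      rw [← h1] at h3
      exact (Nat.even_add.mp h3).mpr h2
    · exact hev v hvv

/-- a minimal nonempty even set is a cycle -/
theorem isCycle_of_minimal (s t : E → V) {C : Finset E} (hne : C.Nonempty) (hC : EvSet s t C)
    (hmin : ∀ D ⊂ C, D.Nonempty → ¬ EvSet s t D) : IsCycle s t C := by
  classical
  refine ⟨hne, ?_, ?_⟩
  · intro v
    by_contra h
    push Not at h
    have h2 : Even (edeg s t C v) := hC v
    have h3 : 2 < edeg s t C v := by
      rcases h2 with ⟨k, hk⟩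
      omega
    obtain ⟨D, hD, hDn, hDe⟩ := exists_smaller s t hC hne v h3
    exact hmin D hD hDn hDe
  · intro e he e' he'
    set D : Finset E := C.filter (fun x =>
      Relation.ReflTransGen (fun a b => a ∈ C ∧ b ∈ C ∧ Touch s t a b) e x) with hDdef
    have hDe : EvSet s t D := component_even s t hC e D (fun x => by rw [hDdef, Finset.mem_filter])
    have hDn : D.Nonempty := ⟨e, Finset.mem_filter.mpr ⟨he, Relation.ReflTransGen.refl⟩⟩
    have hDC : D = C := by
      by_contra hne'
      exact hmin D (Finset.ssubset_iff_subset_ne.mpr ⟨Finset.filter_subset _ _, hne'⟩) hDn hDe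
    have : e' ∈ D := by rw [hDC]; exact he'
    exact (Finset.mem_filter.mp this).2

/-- every nonempty even set contains a cycle -/
theorem exists_cycle_of_even (s t : E → V) {C : Finset E} (hne : C.Nonempty) (hC : EvSet s t C) :
    ∃ D ⊆ C, IsCycle s t D := by
  classical
  induction C using Finset.strongInduction with
  | H C ih =>
    by_cases h : ∃ D ⊂ C, D.Nonempty ∧ EvSet s t D
    · obtain ⟨D, hD, hDn, hDe⟩ := h
      obtain ⟨D', hD', hc⟩ := ih D hD hDn hDe
      exact ⟨D', hD'.trans hD.subset, hc⟩
    · push Not at h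
      exact ⟨C, Finset.Subset.refl _, isCycle_of_minimal s t hne hC h⟩


theorem IsCycle.even {s t : E → V} {C : Finset E} (h : IsCycle s t C) : EvSet s t C := by
  intro v
  change Even (edeg s t C v)
  rcases h.two_regular v with h | h <;> rw [h] <;> decide

/-- every even set is the disjoint union of cycles -/
theorem even_decomp (s t : E → V) (C : Finset E) (hC : EvSet s t C) :
    ∃ L : Multiset (Finset E), (∀ D ∈ L, IsCycle s t D ∧ D ⊆ C) ∧
      ∀ e, L.countP (fun D => e ∈ D) = if e ∈ C then 1 else 0 := by
  classical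
  induction C using Finset.strongInduction with
  | H C ih =>
    by_cases hne : C.Nonempty
    · obtain ⟨D, hD, hc⟩ := exists_cycle_of_even s t hne hC
      have hss : C \ D ⊂ C := by
        refine Finset.ssubset_iff_subset_ne.mpr ⟨Finset.sdiff_subset, ?_⟩
        intro h
        obtain ⟨e, he⟩ := hc.nonempty
        have : e ∈ C \ D := by rw [h]; exact hD he
        exact (Finset.mem_sdiff.mp this).2 he
      obtain ⟨L, hL1, hL2⟩ := ih (C \ D) hss (evSet_sdiff s t hD hC hc.even)
      refine ⟨D ::ₘ L, ?_, ?_⟩
      · intro D' hD'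
        rcases Multiset.mem_cons.mp hD' with h | h
        · subst h
          exact ⟨hc, hD⟩
        · exact ⟨(hL1 D' h).1, (hL1 D' h).2.trans Finset.sdiff_subset⟩
      · intro e
        rw [Multiset.countP_cons, hL2 e]
        by_cases he : e ∈ D
        · simp [he, hD he]
        · by_cases heC : e ∈ C <;> simp [he, heC]
    · rw [Finset.not_nonempty_iff_eq_empty] at hne
      subst hne
      exact ⟨0, by simp, by simp⟩

/-- from finitely many even sets covering every edge exactly k times to cycles covering every edge exactly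
k times -/
theorem cycles_of_even_cover {ι : Type*} [Fintype ι] (s t : E → V) (C : ι → Finset E)
    (hC : ∀ a, EvSet s t (C a)) (k : ℕ)
    (hk : ∀ e, (Finset.univ.filter (fun a => e ∈ C a)).card = k) :
    ∃ L : Multiset (Finset E), (∀ D ∈ L, IsCycle s t D ∧ ∃ a, D ⊆ C a) ∧
      ∀ e, L.countP (fun D => e ∈ D) = k := by
  classical
  choose L hL1 hL2 using fun a => even_decomp s t (C a) (hC a)
  refine ⟨∑ a, L a, ?_, ?_⟩
  · intro D hD
    rw [Multiset.mem_sum] at hD
    obtain ⟨a, _, ha⟩ := hD
    exact ⟨(hL1 a D ha).1, a, (hL1 a D ha).2⟩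
  · intro e
    have h1 : (∑ a, L a).countP (fun D => e ∈ D) = ∑ a, (L a).countP (fun D => e ∈ D) :=
      map_sum (Multiset.countPAddMonoidHom (fun D => e ∈ D)) L Finset.univ
    rw [h1]
    simp only [hL2]
    rw [← hk e, Finset.card_filter]

/-- in a graph without vertices of degree 2 and 1 (for instance a cubic graph) with all degrees at most 3 a
cycle double cover has no repeated member -/
theorem nodup_of_cubic (s t : E → V) (h3 : ∀ v, edeg s t Finset.univ v = 3)
    (L : Multiset (Finset E)) (hL : ∀ D ∈ L, IsCycle s t D)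
    (h2 : ∀ e, L.countP (fun D => e ∈ D) = 2) : L.Nodup := by
  classical
  rw [Multiset.nodup_iff_count_le_one]
  intro D
  by_contra hcnt
  push Not at hcnt
  have hDL : D ∈ L := Multiset.count_pos.mp (by omega)
  have hc := hL D hDL
  obtain ⟨e, he⟩ := hc.nonempty
  have hdeg : edeg s t D (s e) = 2 := by
    rcases hc.two_regular (s e) with h | h
    · have := edeg_pos_left s t he
      omega
    · exact h
  -- an edge at s e outside D
  have hout : 0 < edeg s t (Finset.univ \ D) (s e) := by
    have h1 := edeg_sdiff s t (Finset.subset_univ D) (s e)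
    have h2 := h3 (s e)
    omega
  obtain ⟨x, hx, hxv⟩ := exists_of_edeg_pos s t hout
  have hxD : x ∉ D := (Finset.mem_sdiff.mp hx).2
  have hx2 := h2 x
  have hpos : 0 < L.countP (fun D => x ∈ D) := by omega
  obtain ⟨D', hD'L, hxD'⟩ := Multiset.countP_pos.mp hpos
  have hc' := hL D' hD'L
  have hne : D' ≠ D := by
    intro h
    rw [h] at hxD'
    exact hxD hxD'
  have hdeg' : edeg s t D' (s e) = 2 := by
    rcases hc'.two_regular (s e) with h | h
    · exfalso
      rcases hxv with hv | hv
      · have := edeg_pos_left s t hxD'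
        rw [hv] at this
        omega
      · have := edeg_pos_right s t hxD'
        rw [hv] at this
        omega
    · exact h
  have hint : 0 < edeg s t (D ∩ D') (s e) := by
    have h1 := edeg_union_inter s t D D' (s e)
    have h2 := edeg_mono s t (Finset.subset_univ (D ∪ D')) (s e)
    have h3' := h3 (s e)
    omega
  obtain ⟨z, hz, _⟩ := exists_of_edeg_pos s t hint
  have hzD := (Finset.mem_inter.mp hz).1
  have hzD' := (Finset.mem_inter.mp hz).2
  -- z is covered three times
  have hz2 := h2 z
  have hle : (Multiset.replicate 2 D + {D'}) ≤ L := by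
    rw [Multiset.le_iff_count]
    intro a
    rw [Multiset.count_add, Multiset.count_replicate, Multiset.count_singleton]
    by_cases ha : D = a
    · subst ha
      have : ¬ (D = D') := fun h => hne h.symm
      simp [this]
      omega
    · by_cases ha' : a = D'
      · subst ha'
        simp [ha, Multiset.one_le_count_iff_mem, hD'L]
      · simp [ha, ha']
  have h4 := Multiset.countP_le_of_le (fun D => z ∈ D) hle
  rw [Multiset.countP_add, hz2] at h4
  have h5 : (Multiset.replicate 2 D).countP (fun D => z ∈ D) = 2 := by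
    rw [Multiset.countP_eq_card_filter, Multiset.filter_eq_self.mpr]
    · simp
    · intro a ha
      rw [Multiset.eq_of_mem_replicate ha]
      exact hzD
  have h6 : ({D'} : Multiset (Finset E)).countP (fun D => z ∈ D) = 1 := by
    rw [Multiset.countP_eq_card_filter, Multiset.filter_eq_self.mpr]
    · simp
    · intro a ha
      rw [Multiset.mem_singleton.mp ha]
      exact hzD'
  omega

end CDC
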