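import Mathlib
import Pool.Agent.helper83.CDCC.Cyc

/-!
# CDC-C5 : cubic graphs, 2-connected graphs, bridges

The words of the problem file in Lean, for multigraphs given by s, t : E → V.
-/

namespace CDC

set_option linter.unusedSectionVars false
set_option linter.unusedDecidableInType false

variable {V E : Type*} [Fintype V] [DecidableEq V] [Fintype E] [DecidableEq E]

/-- every vertex has degree 3 (a loop counts twice) -/
def Cubic (s t : E → V) : Prop := ∀ v, edeg s t Finset.univ v = 3

/-- the subgraph with vertex set W and all edges with both ends in W is connected (and W is nonempty):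
any two vertices of W are joined by a walk inside W -/
def ConnOn (s t : E → V) (W : Finset V) : Prop :=
  W.Nonempty ∧ ∀ u ∈ W, ∀ v ∈ W, Relation.ReflTransGen
    (fun a b => a ∈ W ∧ b ∈ W ∧ ∃ e, (s e = a ∧ t e = b) ∨ (s e = b ∧ t e = a)) u v

/-- 2-connected: connected, at least three vertices, and connected after deleting any single vertex -/
def TwoConn (s t : E → V) : Prop :=
  3 ≤ Fintype.card V ∧ ConnOn s t Finset.univ ∧ ∀ x, ConnOn s t (Finset.univ.erase x)

/-- a walk inside W from a point of X to a point outside X uses an edge of W that leaves X -/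
theorem exists_cross (s t : E → V) {W : Finset V} (X : Finset V) {u v : V}
    (h : Relation.ReflTransGen
      (fun a b => a ∈ W ∧ b ∈ W ∧ ∃ e, (s e = a ∧ t e = b) ∨ (s e = b ∧ t e = a)) u v)
    (hu : u ∈ X) (hv : v ∉ X) : ∃ e ∈ cut s t X, s e ∈ W ∧ t e ∈ W := by
  induction h with
  | refl => exact absurd hu hv
  | @tail b c _ hbc ih =>
    by_cases hb : b ∈ X
    · obtain ⟨hbW, hcW, e, he⟩ := hbc
      refine ⟨e, ?_, ?_⟩
      · unfold cut
        rw [Finset.mem_filter]
        refine ⟨Finset.mem_univ _, ?_⟩
        rcases he with ⟨h1, h2⟩ | ⟨h1, h2⟩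
        · rw [h1, h2]; tauto
        · rw [h1, h2]; tauto
      · rcases he with ⟨h1, h2⟩ | ⟨h1, h2⟩
        · rw [h1, h2]; exact ⟨hbW, hcW⟩
        · rw [h1, h2]; exact ⟨hcW, hbW⟩
    · exact ih hb

/-- the cut of a set is the cut of its complement -/
theorem cut_compl (s t : E → V) (X : Finset V) : cut s t Xᶜ = cut s t X := by
  unfold cut
  ext e
  simp only [Finset.mem_filter, Finset.mem_univ, true_and, Finset.mem_compl]
  tauto

theorem bridgeless_aux (s t : E → V) (h : TwoConn s t) (X : Finset V) (e : E) (hX : cut s t X = {e})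
    (he : s e ∈ X) (hte : t e ∉ X) : False := by
  obtain ⟨h3, _, hdel⟩ := h
  by_cases h1 : ∃ x ∈ X, x ≠ s e
  · obtain ⟨x, hx, hxs⟩ := h1
    have hst : t e ≠ s e := fun h => hte (h ▸ he)
    obtain ⟨_, hconn⟩ := hdel (s e)
    have hw := hconn x (Finset.mem_erase.mpr ⟨hxs, Finset.mem_univ _⟩) (t e)
      (Finset.mem_erase.mpr ⟨hst, Finset.mem_univ _⟩)
    obtain ⟨e', he', h4, h5⟩ := exists_cross s t X hw hx hte
    rw [hX, Finset.mem_singleton] at he'
    subst he'
    exact (Finset.mem_erase.mp h4).1 rfl
  · push Not at h1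
    -- X = {s e}; there is a third vertex
    have h2 : ∃ y, y ≠ s e ∧ y ≠ t e := by
      by_contra hno
      push Not at hno
      have hle : (Finset.univ : Finset V) ⊆ {s e, t e} := by
        intro y _
        by_cases hy : y = s e
        · simp [hy]
        · simp [hno y hy]
      have := Finset.card_le_card hle
      rw [Finset.card_univ] at this
      have h5 := Finset.card_le_two (a := s e) (b := t e)
      omega
    obtain ⟨y, hys, hyt⟩ := h2
    have hst : s e ≠ t e := fun h => hte (h ▸ he)
    obtain ⟨_, hconn⟩ := hdel (t e)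
    have hw := hconn (s e) (Finset.mem_erase.mpr ⟨hst, Finset.mem_univ _⟩) y
      (Finset.mem_erase.mpr ⟨hyt, Finset.mem_univ _⟩)
    obtain ⟨e', he', h4, h5⟩ := exists_cross s t X hw he (fun hyX => hys (h1 y hyX))
    rw [hX, Finset.mem_singleton] at he'
    subst he'
    exact (Finset.mem_erase.mp h5).1 rfl

/-- a 2-connected graph has no bridge -/
theorem TwoConn.bridgeless {s t : E → V} (h : TwoConn s t) : Bridgeless s t := by
  intro X hcard
  rw [Finset.card_eq_one] at hcard
  obtain ⟨e, he⟩ := hcard
  have hmem : e ∈ cut s t X := by rw [he]; exact Finset.mem_singleton_self e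
  have hmem' := hmem
  unfold cut at hmem'
  rw [Finset.mem_filter] at hmem'
  by_cases hs : s e ∈ X
  · exact bridgeless_aux s t h X e he hs (fun ht => hmem'.2 ⟨fun _ => ht, fun _ => hs⟩)
  · have ht : t e ∈ X := by
      by_contra ht
      exact hmem'.2 ⟨fun h => absurd h hs, fun h => absurd h ht⟩
    refine bridgeless_aux s t h Xᶜ e (by rw [cut_compl]; exact he) (Finset.mem_compl.mpr hs) ?_
    rw [Finset.mem_compl]
    exact not_not.mpr ht

/-- minimal nonempty even sets are cycles -/
theorem IsCirc.isCycle {s t : E → V} {C : Finset E} (h : IsCirc s t C) : IsCycle s t C :=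
  isCycle_of_minimal s t h.1 h.2.1 (fun D hD hne hev => hD.ne (h.2.2 D hD.subset hne hev))

/-- cycles are minimal nonempty even sets -/
theorem IsCycle.isCirc {s t : E → V} {C : Finset E} (h : IsCycle s t C) : IsCirc s t C := by
  refine ⟨h.nonempty, h.even, ?_⟩
  intro D hD hne hev
  obtain ⟨e, he⟩ := hne
  have key : ∀ v, 0 < edeg s t D v → edeg s t (C \ D) v = 0 := by
    intro v hv
    have h1 : Even (edeg s t D v) := hev v
    have h2 := edeg_sdiff s t hD v
    rcases h.two_regular v with h3 | h3
    · omega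
    · rcases h1 with ⟨k, hk⟩
      omega
  have key2 : ∀ v x, x ∈ C → (s x = v ∨ t x = v) → 0 < edeg s t D v → x ∈ D := by
    intro v x hx hxv hv
    by_contra hxD
    have h1 : x ∈ C \ D := Finset.mem_sdiff.mpr ⟨hx, hxD⟩
    have h2 := key v hv
    rcases hxv with h3 | h3
    · have := edeg_pos_left s t h1
      rw [h3] at this
      omega
    · have := edeg_pos_right s t h1
      rw [h3] at this
      omega
  apply Finset.Subset.antisymm hD
  intro x hx
  have hchain := h.connected e (hD he) x hx
  induction hchain with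
  | refl => exact he
  | @tail b c _ hbc ih =>
    have hb : b ∈ D := ih hbc.1
    rcases hbc.2.2 with h1 | h1 | h1 | h1
    · exact key2 (s b) c hx (Or.inl h1.symm) (edeg_pos_left s t hb)
    · exact key2 (s b) c hx (Or.inr h1.symm) (edeg_pos_left s t hb)
    · exact key2 (t b) c hx (Or.inl h1.symm) (edeg_pos_right s t hb)
    · exact key2 (t b) c hx (Or.inr h1.symm) (edeg_pos_right s t hb)

/-- the final assembly, given the 8-flow theorem and Theorem A for one graph -/
theorem cdc_of_even (s t : E → V) (C : K3 → Finset E) (hC : ∀ a, EvSet s t (C a))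
    (h2 : ∀ e, (Finset.univ.filter (fun a => e ∈ C a)).card = 2) :
    ∃ L : Multiset (Finset E), (∀ D ∈ L, IsCycle s t D) ∧
      ∀ e, L.countP (fun D => e ∈ D) = 2 := by
  obtain ⟨L, hL, hL2⟩ := cycles_of_even_cover s t C hC 2 h2
  exact ⟨L, fun D hD => (hL D hD).1, hL2⟩

/-- a cycle double cover of a cubic graph as a set of cycles -/
theorem cdc_cubic_of_list (s t : E → V) (h3 : Cubic s t) (L : Multiset (Finset E))
    (hL : ∀ D ∈ L, IsCycle s t D) (h2 : ∀ e, L.countP (fun D => e ∈ D) = 2) :
    ∃ F : Finset (Finset E), (∀ D ∈ F, IsCycle s t D) ∧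
      ∀ e, (F.filter (fun D => e ∈ D)).card = 2 := by
  classical
  have hnd := nodup_of_cubic s t h3 L hL h2
  refine ⟨⟨L, hnd⟩, fun D hD => hL D hD, ?_⟩
  intro e
  have h4 := h2 e
  rw [Multiset.countP_eq_card_filter] at h4
  exact h4

/-- the edge e is a bridge: its two ends are not joined by a walk that avoids e -/
def IsBridge (s t : E → V) (e : E) : Prop :=
  ¬ Relation.ReflTransGen
    (fun a b => ∃ e', e' ≠ e ∧ ((s e' = a ∧ t e' = b) ∨ (s e' = b ∧ t e' = a))) (s e) (t e)

/-- a walk that avoids e and joins a point of X to a point outside X uses an edge other than e that leaves X -/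
theorem exists_cross' (s t : E → V) (e : E) (X : Finset V) {u v : V}
    (h : Relation.ReflTransGen
      (fun a b => ∃ e', e' ≠ e ∧ ((s e' = a ∧ t e' = b) ∨ (s e' = b ∧ t e' = a))) u v)
    (hu : u ∈ X) (hv : v ∉ X) : ∃ e' ∈ cut s t X, e' ≠ e := by
  induction h with
  | refl => exact absurd hu hv
  | @tail b c _ hbc ih =>
    by_cases hb : b ∈ X
    · obtain ⟨e', hne, he⟩ := hbc
      refine ⟨e', ?_, hne⟩
      unfold cut
      rw [Finset.mem_filter]
      refine ⟨Finset.mem_univ _, ?_⟩
      rcases he with ⟨h1, h2⟩ | ⟨h1, h2⟩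
      · rw [h1, h2]; tauto
      · rw [h1, h2]; tauto
    · exact ih hb

/-- a graph without bridges has no cut of size one -/
theorem bridgeless_of_no_bridge (s t : E → V) (h : ∀ e, ¬ IsBridge s t e) : Bridgeless s t := by
  intro X hcard
  rw [Finset.card_eq_one] at hcard
  obtain ⟨e, he⟩ := hcard
  have hmem : e ∈ cut s t X := by rw [he]; exact Finset.mem_singleton_self e
  have hmem' := hmem
  unfold cut at hmem'
  rw [Finset.mem_filter] at hmem'
  have hw := not_not.mp (h e)
  by_cases hs : s e ∈ X
  · have ht : t e ∉ X := fun ht => hmem'.2 ⟨fun _ => ht, fun _ => hs⟩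
    obtain ⟨e', he', hne⟩ := exists_cross' s t e X hw hs ht
    rw [he, Finset.mem_singleton] at he'
    exact hne he'
  · have ht : t e ∈ X := by
      by_contra ht
      exact hmem'.2 ⟨fun h => absurd h hs, fun h => absurd h ht⟩
    obtain ⟨e', he', hne⟩ := exists_cross' s t e Xᶜ hw (Finset.mem_compl.mpr hs)
      (by rw [Finset.mem_compl]; exact not_not.mpr ht)
    rw [cut_compl, he, Finset.mem_singleton] at he'
    exact hne he'

end CDC
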